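import Pool.Agent.helper75.IQ.Spec

/-!
# LIN: linearity
-/

set_option autoImplicit false

namespace Pool.Agent.helper75.IQ

open MeasureTheory Set

/-- a continuous function which is a product of a function continuous on an open set `U` and one with support in `U` -/
theorem LIN_cont {U : Set Sp} (hU : IsOpen U) {l F : Sp → ℝ} (hl : ContinuousOn l U)
    (hF : Continuous F) (hs : tsupport F ⊆ U) : Continuous (fun p => l p * F p) := by
  refine continuous_of_tsupport fun x hx => ?_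
  have h1 : x ∈ tsupport F := tsupport_mul_subset_right hx
  exact (hl.continuousAt (hU.mem_nhds (hs h1))).mul hF.continuousAt

theorem LIN_contDiff {U : Set Sp} (hU : IsOpen U) {l F : Sp → ℝ} (hl : ContDiffOn ℝ 1 l U)
    (hF : ContDiff ℝ 1 F) (hs : tsupport F ⊆ U) : ContDiff ℝ 1 (fun p => l p * F p) := by
  rw [contDiff_iff_contDiffAt]
  intro x
  by_cases hx : x ∈ tsupport F
  · exact (hl.contDiffAt (hU.mem_nhds (hs hx))).mul hF.contDiffAt
  · have h1 : F =ᶠ[nhds x] fun _ => 0 := by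
      have := notMem_tsupport_iff_eventuallyEq.1 hx
      exact this
    have h2 : (fun p => l p * F p) =ᶠ[nhds x] fun _ => 0 := by
      filter_upwards [h1] with p hp
      rw [hp, mul_zero]
    exact contDiffAt_const.congr_of_eventuallyEq h2

theorem LIN_nq : ContDiff ℝ 1 (fun p : Sp => nq (pr p)) := by
  unfold nq pr
  fun_prop

theorem LIN_space_open (κ : ℝ) : IsOpen (space κ) := by
  unfold space
  refine isOpen_lt continuous_const ?_
  exact continuous_const.add (continuous_const.mul LIN_nq.continuous)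

theorem LIN_lam (κ : ℝ) : ContDiffOn ℝ 1 (fun p : Sp => lam κ (nq (pr p))) (space κ) := by
  unfold lam
  refine ContDiffOn.inv ?_ ?_
  · exact (contDiff_const.add (contDiff_const.mul LIN_nq)).contDiffOn
  · intro x hx
    exact ne_of_gt hx

theorem LIN_lamf {κ : ℝ} {F : Sp → ℝ} (hF : ContDiff ℝ 1 F) (hs : tsupport F ⊆ space κ) :
    ContDiff ℝ 1 (fun p => lam κ (nq (pr p)) * F p) :=
  LIN_contDiff (LIN_space_open κ) (LIN_lam κ) hF hs

theorem LIN_zero (κ : ℝ) : C1c κ ⟨fun _ => 0, fun _ => 0, fun _ => 0⟩ := by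
  have h1 : HasCompactSupport (fun _ : Sp => (0 : ℝ)) := HasCompactSupport.zero
  have h2 : tsupport (fun _ : Sp => (0 : ℝ)) ⊆ space κ := by
    have : tsupport (fun _ : Sp => (0 : ℝ)) = ∅ := by
      rw [tsupport_eq_empty_iff]
      rfl
    rw [this]
    exact empty_subset _
  exact ⟨contDiff_const, contDiff_const, contDiff_const, h1, h1, h1, h2, h2, h2⟩

/-- the sum of two test functions -/
theorem LIN_addf {κ θ : ℝ} {f g : Sp → ℝ} (hf : ContDiff ℝ 1 f) (hg : ContDiff ℝ 1 g)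
    (sf : HasCompactSupport f) (sg : HasCompactSupport g) (tf : tsupport f ⊆ space κ)
    (tg : tsupport g ⊆ space κ) : ContDiff ℝ 1 (fun p => f p + θ * g p) ∧
    HasCompactSupport (fun p => f p + θ * g p) ∧ tsupport (fun p => f p + θ * g p) ⊆ space κ := by
  have h1 : tsupport (fun p => f p + θ * g p) ⊆ tsupport f ∪ tsupport g := by
    refine (tsupport_add f (fun p => θ * g p)).trans ?_
    exact union_subset_union_right _ tsupport_mul_subset_right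
  refine ⟨hf.add (contDiff_const.mul hg), ?_, h1.trans (union_subset tf tg)⟩
  exact (IsCompact.union sf sg).of_isClosed_subset (isClosed_tsupport _) h1

theorem LIN_add {κ : ℝ} {Y Z : VF} (θ : ℝ) (hY : C1c κ Y) (hZ : C1c κ Z) :
    C1c κ (add Y Z θ) := by
  obtain ⟨a1, a2, a3⟩ := LIN_addf (θ := θ) hY.ca hZ.ca hY.sa hZ.sa hY.ia hZ.ia
  obtain ⟨b1, b2, b3⟩ := LIN_addf (θ := θ) hY.cb hZ.cb hY.sb hZ.sb hY.ib hZ.ib
  obtain ⟨c1, c2, c3⟩ := LIN_addf (θ := θ) hY.cc hZ.cc hY.sc hZ.sc hY.ic hZ.ic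
  exact ⟨a1, b1, c1, a2, b2, c2, a3, b3, c3⟩

theorem LIN_mul {κ : ℝ} {Y : VF} {ψ : Sp → ℝ} (hY : C1c κ Y) (hψ : ContDiff ℝ 1 ψ) :
    C1c κ (mul ψ Y) := by
  refine ⟨hψ.mul hY.ca, hψ.mul hY.cb, hψ.mul hY.cc, hY.sa.mul_left, hY.sb.mul_left,
    hY.sc.mul_left, ?_, ?_, ?_⟩
  · exact (tsupport_mul_subset_right).trans hY.ia
  · exact (tsupport_mul_subset_right).trans hY.ib
  · exact (tsupport_mul_subset_right).trans hY.ic

theorem LIN_fder {f g : Sp → ℝ} (hf : ContDiff ℝ 1 f) (hg : ContDiff ℝ 1 g) (θ : ℝ) (p v : Sp) :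
    fderiv ℝ (fun q => f q + θ * g q) p v = fderiv ℝ f p v + θ * fderiv ℝ g p v := by
  have h1 : DifferentiableAt ℝ f p := (hf.differentiable (by norm_num)) p
  have h2 : DifferentiableAt ℝ g p := (hg.differentiable (by norm_num)) p
  have h3 : HasFDerivAt (fun q => f q + θ * g q) (fderiv ℝ f p + θ • fderiv ℝ g p) p :=
    h1.hasFDerivAt.add (h2.hasFDerivAt.const_mul θ)
  rw [h3.fderiv]
  simp

theorem LIN_dv {κ : ℝ} (τ : ℝ) {Y Z : VF} (θ : ℝ) (hY : C1c κ Y) (hZ : C1c κ Z) (p : Sp) :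
    dv κ τ (add Y Z θ) p = dv κ τ Y p + θ * dv κ τ Z p := by
  unfold dv
  have e1 : (fun q : Sp => lam κ (nq (pr q)) * (add Y Z θ).a q) =
      fun q => (lam κ (nq (pr q)) * Y.a q) + θ * (lam κ (nq (pr q)) * Z.a q) := by
    funext q
    show lam κ (nq (pr q)) * (Y.a q + θ * Z.a q) = _
    ring
  have e2 : (fun q : Sp => lam κ (nq (pr q)) * (add Y Z θ).b q) =
      fun q => (lam κ (nq (pr q)) * Y.b q) + θ * (lam κ (nq (pr q)) * Z.b q) := by
    funext q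
    show lam κ (nq (pr q)) * (Y.b q + θ * Z.b q) = _
    ring
  rw [e1, e2, LIN_fder (LIN_lamf hY.ca hY.ia) (LIN_lamf hZ.ca hZ.ia),
    LIN_fder (LIN_lamf hY.cb hY.ib) (LIN_lamf hZ.cb hZ.ib)]
  have e3 : fderiv ℝ (add Y Z θ).a p (0, 0, 1) =
      fderiv ℝ Y.a p (0, 0, 1) + θ * fderiv ℝ Z.a p (0, 0, 1) := LIN_fder hY.ca hZ.ca θ p _
  have e4 : fderiv ℝ (add Y Z θ).b p (0, 0, 1) =
      fderiv ℝ Y.b p (0, 0, 1) + θ * fderiv ℝ Z.b p (0, 0, 1) := LIN_fder hY.cb hZ.cb θ p _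
  have e5 : fderiv ℝ (add Y Z θ).c p (0, 0, 1) =
      fderiv ℝ Y.c p (0, 0, 1) + θ * fderiv ℝ Z.c p (0, 0, 1) := LIN_fder hY.cc hZ.cc θ p _
  rw [e3, e4, e5]
  ring

/-- the fderiv in a direction -/
theorem LIN_fd_cont {F : Sp → ℝ} (hF : ContDiff ℝ 1 F) (v : Sp) :
    Continuous (fun p => fderiv ℝ F p v) :=
  (hF.continuous_fderiv (by norm_num)).clm_apply continuous_const

theorem LIN_dv_int {κ : ℝ} (τ : ℝ) {Y : VF} (hY : C1c κ Y) :
    Continuous (dv κ τ Y) ∧ HasCompactSupport (dv κ τ Y) := by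
  have hl : ContinuousOn (fun p : Sp => lam κ (nq (pr p)) ^ 2) (space κ) :=
    (LIN_lam κ).continuousOn.pow 2
  have c1 := LIN_fd_cont (LIN_lamf hY.ca hY.ia) (1, 0, 0)
  have c2 := LIN_fd_cont (LIN_lamf hY.cb hY.ib) (0, 1, 0)
  have s1 : HasCompactSupport (fun p => fderiv ℝ (fun q : Sp => lam κ (nq (pr q)) * Y.a q) p (1, 0, 0)) := by
    refine HasCompactSupport.fderiv_apply ℝ ?_ _
    exact hY.sa.mul_left
  have s2 : HasCompactSupport (fun p => fderiv ℝ (fun q : Sp => lam κ (nq (pr q)) * Y.b q) p (0, 1, 0)) := by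
    refine HasCompactSupport.fderiv_apply ℝ ?_ _
    exact hY.sb.mul_left
  have d1 := LIN_fd_cont hY.ca (0, 0, 1)
  have d2 := LIN_fd_cont hY.cb (0, 0, 1)
  have d3 := LIN_fd_cont hY.cc (0, 0, 1)
  have t1 : tsupport (fun p : Sp => -(τ * p.2.1) * fderiv ℝ Y.a p (0, 0, 1)) ⊆ tsupport Y.a :=
    (tsupport_mul_subset_right).trans (tsupport_fderiv_apply_subset ℝ _)
  have t2 : tsupport (fun p : Sp => τ * p.1 * fderiv ℝ Y.b p (0, 0, 1)) ⊆ tsupport Y.b :=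
    (tsupport_mul_subset_right).trans (tsupport_fderiv_apply_subset ℝ _)
  have t3 : tsupport (fun p : Sp => fderiv ℝ Y.c p (0, 0, 1)) ⊆ tsupport Y.c :=
    tsupport_fderiv_apply_subset ℝ _
  have cG : Continuous (fun p : Sp => -(τ * p.2.1) * fderiv ℝ Y.a p (0, 0, 1) +
      τ * p.1 * fderiv ℝ Y.b p (0, 0, 1) + fderiv ℝ Y.c p (0, 0, 1)) := by
    refine ((Continuous.mul ?_ d1).add (Continuous.mul ?_ d2)).add d3
    · fun_prop
    · fun_prop
  have tG : tsupport (fun p : Sp => -(τ * p.2.1) * fderiv ℝ Y.a p (0, 0, 1) +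
      τ * p.1 * fderiv ℝ Y.b p (0, 0, 1) + fderiv ℝ Y.c p (0, 0, 1)) ⊆
      (tsupport Y.a ∪ tsupport Y.b) ∪ tsupport Y.c := by
    refine (tsupport_add (fun p : Sp => -(τ * p.2.1) * fderiv ℝ Y.a p (0, 0, 1) +
      τ * p.1 * fderiv ℝ Y.b p (0, 0, 1)) _).trans (union_subset_union ?_ t3)
    exact (tsupport_add (fun p : Sp => -(τ * p.2.1) * fderiv ℝ Y.a p (0, 0, 1)) _).trans
      (union_subset_union t1 t2)
  have sG : HasCompactSupport (fun p : Sp => -(τ * p.2.1) * fderiv ℝ Y.a p (0, 0, 1) +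
      τ * p.1 * fderiv ℝ Y.b p (0, 0, 1) + fderiv ℝ Y.c p (0, 0, 1)) :=
    (IsCompact.union (IsCompact.union hY.sa hY.sb) hY.sc).of_isClosed_subset
      (isClosed_tsupport _) tG
  have c3 := LIN_cont (LIN_space_open κ) hl cG
    (tG.trans (union_subset (union_subset hY.ia hY.ib) hY.ic))
  constructor
  · exact (c1.add c2).add c3
  · refine (HasCompactSupport.add s1 s2).add ?_
    exact sG.mul_left

theorem LIN_integrable {κ : ℝ} (τ : ℝ) {Y : VF} (hY : C1c κ Y) :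
    Integrable (dv κ τ Y) (volume : Measure Sp) :=
  (LIN_dv_int τ hY).1.integrable_of_hasCompactSupport (LIN_dv_int τ hY).2

theorem LIN_TT {κ : ℝ} (τ : ℝ) (E : Set Sp) {Y Z : VF} (θ : ℝ) (hY : C1c κ Y) (hZ : C1c κ Z) :
    TT κ τ E (add Y Z θ) = TT κ τ E Y + θ * TT κ τ E Z := by
  unfold TT
  have h1 : ∀ p, dv κ τ (add Y Z θ) p = dv κ τ Y p + θ * dv κ τ Z p :=
    fun p => LIN_dv τ θ hY hZ p
  simp_rw [h1]
  rw [integral_add (LIN_integrable τ hY).integrableOn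
    ((LIN_integrable τ hZ).integrableOn.const_mul θ), integral_const_mul]

theorem LIN_TT_zero (κ τ : ℝ) (E : Set Sp) :
    TT κ τ E ⟨fun _ => 0, fun _ => 0, fun _ => 0⟩ = 0 := by
  unfold TT
  have h1 : ∀ p, dv κ τ ⟨fun _ => 0, fun _ => 0, fun _ => 0⟩ p = 0 := by
    intro p
    unfold dv
    simp
  simp_rw [h1]
  simp

/-- the upper bound -/
theorem LIN_upper {κ τ : ℝ} {E : Set Sp} {P : ℝ} (hP : per κ τ E ≤ ENNReal.ofReal P) (hP0 : 0 ≤ P)
    {Y : VF} {M c : ℝ} (hY : C1c κ Y) (hc : c ^ 2 * M ^ 2 ≤ 1)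
    (hM : ∀ p, Y.a p ^ 2 + Y.b p ^ 2 + Y.c p ^ 2 ≤ M ^ 2) : c * TT κ τ E Y ≤ P := by
  have h1 : Adm κ (add ⟨fun _ => 0, fun _ => 0, fun _ => 0⟩ Y c) := by
    refine ⟨LIN_add c (LIN_zero κ) hY, fun p => ?_⟩
    show (0 + c * Y.a p) ^ 2 + (0 + c * Y.b p) ^ 2 + (0 + c * Y.c p) ^ 2 ≤ 1
    have h2 := hM p
    have h3 : c ^ 2 * (Y.a p ^ 2 + Y.b p ^ 2 + Y.c p ^ 2) ≤ c ^ 2 * M ^ 2 :=
      mul_le_mul_of_nonneg_left h2 (sq_nonneg c)
    nlinarith
  have h4 : ENNReal.ofReal (TT κ τ E (add ⟨fun _ => 0, fun _ => 0, fun _ => 0⟩ Y c)) ≤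
      per κ τ E := by
    unfold per
    exact le_iSup₂ (f := fun (Y : VF) (_ : Adm κ Y) => ENNReal.ofReal (TT κ τ E Y)) _ h1
  have h5 := (ENNReal.ofReal_le_ofReal_iff hP0).1 (h4.trans hP)
  rw [LIN_TT τ E c (LIN_zero κ) hY, LIN_TT_zero, zero_add] at h5
  exact h5

theorem LIN : LIN_stmt := by
  intro κ τ E
  refine ⟨fun Y Z θ hY hZ => ⟨LIN_add θ hY hZ, LIN_TT τ E θ hY hZ⟩, ?_,
    fun Y ψ hY hψ => LIN_mul hY hψ⟩
  intro P hP hP0 Y M hY hM hb
  have hMne : M ≠ 0 := hM.ne'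
  constructor
  · have h1 := LIN_upper (c := 1 / M) hP hP0 hY (by field_simp; exact le_rfl) hb
    have h2 : TT κ τ E Y = M * (1 / M * TT κ τ E Y) := by field_simp
    rw [h2]
    exact mul_le_mul_of_nonneg_left h1 hM.le
  · have h1 := LIN_upper (c := -(1 / M)) hP hP0 hY (by rw [neg_sq]; field_simp; exact le_rfl) hb
    have h2 : TT κ τ E Y = -(M * (-(1 / M) * TT κ τ E Y)) := by field_simp
    rw [h2]
    exact neg_le_neg (mul_le_mul_of_nonneg_left h1 hM.le)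

end Pool.Agent.helper75.IQ
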