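import Pool.Agent.helper75.IQ.Spec

/-!
# POL: polar coordinates
-/

set_option autoImplicit false

namespace Pool.Agent.helper75.IQ

open MeasureTheory Set

theorem POL_meas : Measurable nq := by
  unfold nq
  fun_prop

/-- the area of the disc `nq ≤ s` -/
theorem POL_disc (s : ℝ) : volume (nq ⁻¹' (Iic s)) = ENNReal.ofReal (Real.pi * max s 0) := by
  have hmp := Complex.volume_preserving_equiv_real_prod
  have h1 : volume (nq ⁻¹' (Iic s)) =
      volume (Complex.measurableEquivRealProd ⁻¹' (nq ⁻¹' (Iic s))) :=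
    (hmp.measure_preimage (POL_meas measurableSet_Iic).nullMeasurableSet).symm
  rw [h1]
  rcases lt_or_ge s 0 with hs | hs
  · have h2 : Complex.measurableEquivRealProd ⁻¹' (nq ⁻¹' (Iic s)) = ∅ := by
      ext z
      simp only [mem_preimage, mem_Iic, mem_empty_iff_false, iff_false, not_le]
      rw [Complex.measurableEquivRealProd_apply]
      unfold nq
      have := sq_nonneg z.re
      have := sq_nonneg z.im
      show s < z.re ^ 2 + z.im ^ 2
      linarith
    rw [h2, measure_empty, max_eq_right hs.le, mul_zero, ENNReal.ofReal_zero]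
  · have h2 : Complex.measurableEquivRealProd ⁻¹' (nq ⁻¹' (Iic s)) =
        Metric.closedBall (0 : ℂ) (√s) := by
      ext z
      rw [mem_preimage, mem_preimage, mem_Iic, Complex.measurableEquivRealProd_apply,
        mem_closedBall_zero_iff, Real.le_sqrt (norm_nonneg z) hs, Complex.sq_norm,
        Complex.normSq_apply]
      unfold nq
      show z.re ^ 2 + z.im ^ 2 ≤ s ↔ _
      rw [sq, sq]
    rw [h2, Complex.volume_closedBall, max_eq_left hs, ← ENNReal.ofReal_pow (Real.sqrt_nonneg s),
      Real.sq_sqrt hs, mul_comm Real.pi s, ENNReal.ofReal_mul hs]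
    congr 1
    rw [← NNReal.coe_real_pi, ENNReal.ofReal_coe_nnreal]

theorem POL : POL_stmt := by
  unfold POL_stmt
  symm
  have hpi := Real.pi_pos
  have : IsLocallyFiniteMeasure
      (ENNReal.ofReal Real.pi • (volume.restrict (Ioi (0 : ℝ)))) := by
    refine ⟨fun x => ?_⟩
    refine ⟨Icc (x - 1) (x + 1), Icc_mem_nhds (by linarith) (by linarith), ?_⟩
    rw [Measure.smul_apply, smul_eq_mul]
    refine ENNReal.mul_lt_top ENNReal.ofReal_lt_top ?_
    refine lt_of_le_of_lt (Measure.restrict_apply_le _ _) ?_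
    exact measure_Icc_lt_top
  refine Measure.ext_of_Ioc _ _ ?_
  intro a b hab
  rw [Measure.smul_apply, smul_eq_mul, Measure.restrict_apply measurableSet_Ioc,
    Measure.map_apply POL_meas measurableSet_Ioc]
  have h1 : nq ⁻¹' (Ioc a b) = nq ⁻¹' (Iic b) \ nq ⁻¹' (Iic a) := by
    ext q
    simp only [mem_preimage, mem_Ioc, mem_sdiff, mem_Iic, not_le]
    exact and_comm
  have h2 : nq ⁻¹' (Iic a) ⊆ nq ⁻¹' (Iic b) := preimage_mono (Iic_subset_Iic.2 hab.le)
  have h3 : volume (nq ⁻¹' (Iic a)) ≠ ⊤ := by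
    rw [POL_disc]
    exact ENNReal.ofReal_ne_top
  rw [h1, measure_sdiff h2 (POL_meas measurableSet_Iic).nullMeasurableSet h3, POL_disc, POL_disc,
    ← ENNReal.ofReal_sub _ (by positivity)]
  have h4 : Ioc a b ∩ Ioi 0 = Ioc (max a 0) b := by
    ext x
    simp only [mem_inter_iff, mem_Ioc, mem_Ioi, max_lt_iff]
    tauto
  rw [h4, Real.volume_Ioc, ← ENNReal.ofReal_mul hpi.le]
  rcases le_or_gt 0 b with hb | hb
  · rw [max_eq_left hb]
    congr 1
    ring
  · have ha : a < 0 := hab.trans hb
    rw [max_eq_right hb.le, max_eq_right ha.le, sub_self, ENNReal.ofReal_zero]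
    refine ENNReal.ofReal_of_nonpos ?_
    nlinarith

end Pool.Agent.helper75.IQ
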